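import Pool.Agent.H58.CT.Targets

/-!
# Board ct_modules, row AMP: a mixing subuniverse
-/

set_option autoImplicit false
set_option linter.unusedVariables false

namespace Pool.Agent.H49.CT

open Pool.Agent.H58.CT

section

variable {𝒞 : Cln} {E : Type} [Alg 𝒞 E]

/-- One step preserves absorption. -/
theorem abs_nx {S : Set (E × E)} {V W : Set E} (hS : Sub 𝒞 S) (hV : Sub 𝒞 V)
    (hsm : Smooth S V) (hW : Abs 𝒞 W V) : Abs 𝒞 (nx S V W) V := by
  classical
  obtain ⟨hne, hWs, hWV, I, hI, t, ht⟩ := hW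
  refine ⟨?_, ?_, fun y hy => hy.1, I, hI, t, ?_⟩
  · obtain ⟨x, hx⟩ := hne
    obtain ⟨y, hy, hxy⟩ := hsm.1 x (hWV hx)
    exact ⟨y, hy, x, hx, hxy⟩
  · intro J _ s y hy
    choose x hx hxy using fun i => (hy i).2
    exact ⟨hV J s y fun i => (hy i).1, Alg.int s x, hWs J s x hx,
      hS J s (fun i => (x i, y i)) hxy⟩
  · intro i y hy hy'
    have hx : ∀ j, ∃ x, x ∈ V ∧ (j ≠ i → x ∈ W) ∧ (x, y j) ∈ S := by
      intro j
      by_cases hj : j = i
      · obtain ⟨x, hx, hxy⟩ := hsm.2 (y j) (hy j)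
        exact ⟨x, hx, fun h => (h hj).elim, hxy⟩
      · obtain ⟨_, x, hx, hxy⟩ := hy' j hj
        exact ⟨x, hWV hx, fun _ => hx, hxy⟩
    choose x hx using hx
    exact ⟨hV I t y hy, Alg.int t x, ht i x (fun j => (hx j).1) fun j hj => (hx j).2.1 hj,
      hS I t (fun j => (x j, y j)) fun j => (hx j).2.2⟩

end

section

variable {A : Type} {p : ℕ}

theorem sh_inj : Function.Injective (sh : (ZMod p → A) → ZMod p → A) := by
  intro r r' h
  funext j
  have h1 := congrFun h (j - 1)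
  unfold sh at h1
  rwa [sub_add_cancel] at h1

theorem sh_iter (k : ℕ) (r : ZMod p → A) (j : ZMod p) :
    (sh^[k] r) j = r (j + ((k : ℕ) : ZMod p)) := by
  induction k generalizing r with
  | zero => simp
  | succ k ih =>
    rw [Function.iterate_succ_apply, ih]
    unfold sh
    congr 1
    push_cast
    ring

/-- closed under changes of one coordinate -/
def Clo (R V : Set (ZMod p → A)) : Prop :=
  V ⊆ R ∧ ∀ r ∈ V, ∀ r' ∈ R, ∀ i, (∀ j, j ≠ i → r j = r' j) → r' ∈ V

end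

theorem bdd_const {f : ℕ → ℕ} (hf : ∀ n, f n ≤ f (n + 1)) {B : ℕ} (hB : ∀ n, f n ≤ B) :
    ∃ n₀, ∀ n, n₀ ≤ n → f n = f n₀ := by
  have hmono : Monotone f := monotone_nat_of_le_succ hf
  have hbdd : BddAbove (Set.range f) := ⟨B, by rintro _ ⟨n, rfl⟩; exact hB n⟩
  obtain ⟨n₀, hn₀⟩ := Nat.sSup_mem (Set.range_nonempty f) hbdd
  refine ⟨n₀, fun n hn => le_antisymm ?_ (hmono hn)⟩
  rw [hn₀]
  exact le_csSup hbdd ⟨n, rfl⟩

theorem pf_AMP : T_AMP := by
  classical
  intro 𝒞 A _ _ p _ R hRne hRs hRsh hconn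
  have hp : 1 < p := (Fact.out : p.Prime).one_lt
  have hfinA : Finite (ZMod p → A) := inferInstance
  -- part A
  have hA : ∀ V', Clo R V' → Abs 𝒞 V' R → ∀ N, Mn 𝒞 N R → N ⊆ V' := by
    intro V' hclo habs N hN
    obtain ⟨N₀, hN₀⟩ := exists_mn habs.2.1 habs.1
    have h := hconn N₀ N (hN₀.trans habs) hN
    induction h with
    | refl => exact hN₀.1.2.2.1
    | tail _ hstep ih =>
      rename_i K K'
      obtain ⟨hK, hK', i, n, hn, n', hn', hw⟩ := hstep
      have h1 : n ∈ V' := ih hK hn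
      have h2 : n' ∈ V' := by
        refine hclo.2 n h1 n' (hK'.1.2.2.1 hn') (i - 1) fun c hc => ?_
        have hd : (c - i).val < p - 1 := by
          have hlt : (c - i).val < p := ZMod.val_lt _
          have hne : (c - i).val ≠ p - 1 := by
            intro h
            apply hc
            have h3 : c - i = (((c - i).val : ℕ) : ZMod p) := (ZMod.natCast_zmod_val _).symm
            rw [h, Nat.cast_sub hp.le] at h3
            simp only [CharP.cast_eq_zero, Nat.cast_one, zero_sub] at h3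
            rw [sub_eq_iff_eq_add] at h3
            rw [h3]
            ring
          omega
        have h4 := congrFun hw ⟨(c - i).val, hd⟩
        unfold win at h4
        simp only [ZMod.natCast_val, ZMod.cast_id', id_eq, add_sub_cancel] at h4
        exact h4
      exact hK'.subset habs ⟨n', hn', h2⟩
  -- part B
  have hRR : Abs 𝒞 R R ∧ Clo R R := ⟨abs_self hRs hRne, subset_rfl, fun _ _ r' hr' _ _ => hr'⟩
  have hfin : {V : Set (ZMod p → A) | Abs 𝒞 V R ∧ Clo R V}.Finite := Set.toFinite _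
  obtain ⟨V, ⟨hVabs, hVclo⟩, hmin⟩ := hfin.exists_minimal ⟨R, hRR⟩
  have hB : ∀ V', Abs 𝒞 V' R → Clo R V' → V ⊆ V' := by
    intro V' hV' hclo'
    obtain ⟨N₀, hN₀⟩ := exists_mn hRs hRne
    have h1 := hA V hVclo hVabs N₀ hN₀
    have h2 := hA V' hclo' hV' N₀ hN₀
    obtain ⟨x, hx⟩ := hN₀.1.1
    have h3 : Abs 𝒞 (V ∩ V') R := abs_inter hVabs hV' ⟨x, h1 hx, h2 hx⟩
    have h4 : Clo R (V ∩ V') := ⟨fun a ha => hVclo.1 ha.1, fun r hr r' hr' i hi =>
      ⟨hVclo.2 r hr.1 r' hr' i hi, hclo'.2 r hr.2 r' hr' i hi⟩⟩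
    have h5 := hmin (show (V ∩ V') ∈ {V : Set (ZMod p → A) | Abs 𝒞 V R ∧ Clo R V} from
      ⟨h3, h4⟩) Set.inter_subset_left
    exact fun a ha => (h5 ha).2
  -- part C
  have hshR : sh '' R = R := by
    refine Set.eq_of_subset_of_ncard_le ?_ ?_ (Set.toFinite _)
    · rintro _ ⟨r, hr, rfl⟩
      exact hRsh r hr
    · rw [Set.ncard_image_of_injective _ sh_inj]
  have hshV : sh '' V = V := by
    have h1 : Abs 𝒞 (sh '' V) R := by
      have h2 := abs_image (f := fun r : ZMod p → A => sh r) hm_sh hVabs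
      rwa [hshR] at h2
    have h2 : Clo R (sh '' V) := by
      refine ⟨h1.2.2.1, ?_⟩
      rintro _ ⟨v, hv, rfl⟩ r' hr' i hi
      rw [← hshR] at hr'
      obtain ⟨w, hw, rfl⟩ := hr'
      refine ⟨w, hVclo.2 v hv w hw (i + 1) fun j hj => ?_, rfl⟩
      have h3 := hi (j - 1) fun h => hj (by rw [← h, sub_add_cancel])
      unfold sh at h3
      rwa [sub_add_cancel] at h3
    refine (Set.eq_of_subset_of_ncard_le (hB _ h1 h2) ?_ (Set.toFinite _)).symm
    rw [Set.ncard_image_of_injective _ sh_inj]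
  have hshV' : ∀ r ∈ V, sh r ∈ V := fun r hr => by
    have : sh r ∈ sh '' V := ⟨r, hr, rfl⟩
    rwa [hshV] at this
  have hstep : ∀ r ∈ V, (r, sh r) ∈ shS R := fun r hr =>
    ⟨hVclo.1 hr, hVclo.1 (hshV' r hr), fun _ _ => rfl⟩
  have hsm : Smooth (shS R) V := by
    refine ⟨fun x hx => ⟨sh x, hshV' x hx, hstep x hx⟩, fun y hy => ?_⟩
    rw [← hshV] at hy
    obtain ⟨x, hx, rfl⟩ := hy
    exact ⟨x, hx, hstep x hx⟩
  have hSs : Sub 𝒞 (shS R) := by
    intro I _ t x hx
    refine ⟨hRs I t _ fun i => (hx i).1, hRs I t _ fun i => (hx i).2.1, fun j hj => ?_⟩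
    change Alg.int t (fun i => (x i).2 j) = Alg.int t (fun i => (x i).1 (j + 1))
    congr 1
    funext i
    exact (hx i).2.2 j hj
  -- part D
  refine ⟨V, hVabs, hsm, fun W hW => ?_⟩
  have hWn : ∀ n, Abs 𝒞 ((nx (shS R) V)^[n] W) V := by
    intro n
    induction n with
    | zero => exact hW
    | succ n ih =>
      rw [Function.iterate_succ_apply']
      exact abs_nx hSs hVabs.2.1 hsm ih
  have hsub : ∀ n, sh '' ((nx (shS R) V)^[n] W) ⊆ (nx (shS R) V)^[n + 1] W := by
    intro n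
    rintro _ ⟨w, hw, rfl⟩
    rw [Function.iterate_succ_apply']
    have hwV : w ∈ V := (hWn n).2.2.1 hw
    exact ⟨hshV' w hwV, w, hw, hstep w hwV⟩
  obtain ⟨n₀, hn₀⟩ := bdd_const (f := fun n => ((nx (shS R) V)^[n] W).ncard) (B := V.ncard)
    (fun n => by
      have h1 := Set.ncard_le_ncard (hsub n) (Set.toFinite _)
      rwa [Set.ncard_image_of_injective _ sh_inj] at h1)
    (fun n => Set.ncard_le_ncard (hWn n).2.2.1 (Set.toFinite _))
  have heq : ∀ n, n₀ ≤ n → sh '' ((nx (shS R) V)^[n] W) = (nx (shS R) V)^[n + 1] W := by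
    intro n hn
    refine Set.eq_of_subset_of_ncard_le (hsub n) ?_ (Set.toFinite _)
    rw [Set.ncard_image_of_injective _ sh_inj]
    exact ((hn₀ (n + 1) (by omega)).trans (hn₀ n hn).symm).le
  have hmem : ∀ k n r, r ∈ (nx (shS R) V)^[n] W → sh^[k] r ∈ (nx (shS R) V)^[n + k] W := by
    intro k
    induction k with
    | zero => intro n r hr; exact hr
    | succ k ih =>
      intro n r hr
      rw [Function.iterate_succ_apply']
      exact hsub (n + k) ⟨_, ih n r hr, rfl⟩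
  have hmemV : ∀ k r, r ∈ V → sh^[k] r ∈ V := by
    intro k
    induction k with
    | zero => intro r hr; exact hr
    | succ k ih =>
      intro r hr
      rw [Function.iterate_succ_apply']
      exact hshV' _ (ih r hr)
  have hback : ∀ k n, n₀ ≤ n → ∀ r, sh^[k] r ∈ (nx (shS R) V)^[n + k] W →
      r ∈ (nx (shS R) V)^[n] W := by
    intro k
    induction k with
    | zero => intro n _ r hr; exact hr
    | succ k ih =>
      intro n hn r hr
      rw [Function.iterate_succ_apply', ← add_assoc, ← heq (n + k) (by omega)] at hr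
      obtain ⟨w, hw, hwr⟩ := hr
      rw [sh_inj hwr] at hw
      exact ih n hn r hw
  refine ⟨n₀, fun n hn => subset_antisymm (hWn n).2.2.1 ?_⟩
  refine hB _ (abs_trans (hWn n) hVabs) ⟨fun a ha => hVclo.1 ((hWn n).2.2.1 ha), ?_⟩
  intro r hr r' hr' i hi
  have hrV : r ∈ V := (hWn n).2.2.1 hr
  have hr'V : r' ∈ V := hVclo.2 r hrV r' hr' i hi
  refine hback (i.val + 1) n hn r' ?_
  rw [← add_assoc, Function.iterate_succ_apply' (nx (shS R) V)]
  refine ⟨hmemV _ _ hr'V, sh^[i.val] r, hmem _ _ _ hr, hVclo.1 (hmemV _ _ hrV),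
    hVclo.1 (hmemV _ _ hr'V), fun j hj => ?_⟩
  change (sh^[i.val + 1] r') j = (sh^[i.val] r) (j + 1)
  rw [sh_iter, sh_iter]
  have h1 : j + 1 + ((i.val : ℕ) : ZMod p) = j + (((i.val + 1 : ℕ)) : ZMod p) := by
    push_cast
    ring
  rw [← h1]
  refine (hi _ fun h => hj ?_).symm
  rw [ZMod.natCast_zmod_val] at h
  have h2 : j + 1 = 0 := by
    have h3 : j + 1 + i = 0 + i := by rw [h, zero_add]
    exact add_right_cancel h3
  exact eq_neg_of_add_eq_zero_left h2

end Pool.Agent.H49.CT
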